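import Pool.Agent.Helper78.TW.StB

/-! # Project TW (MP_3c9520_nt): module IND (different newforms are linearly independent) -/

set_option autoImplicit false

namespace Pool.Agent.Helper47.TW

open Pool.Agent.Helper14.CV Pool.Agent.Helper28.WK Pool.Agent.Helper78.TW
open UpperHalfPlane CongruenceSubgroup
open scoped MatrixGroups

private lemma sp (N : ℕ) : (1 : ℝ) ∈ (G0 N).strictPeriods := by
  simp

private lemma fc0 {N : ℕ} (hN : NeZero N) (f : CuspForm (G0 N) 2) : fc f 0 = 0 := by
  unfold fc
  rw [UpperHalfPlane.qExpansion_coeff_zero one_pos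
    (ModularFormClass.analyticAt_cuspFunction_zero f one_pos (sp N))
    (SlashInvariantFormClass.periodic_comp_ofComplex f (sp N))]
  exact (CuspFormClass.zero_at_infty f).valueAtInfty_eq_zero

/-- The coefficients as a linear map. -/
private noncomputable def fcL {N : ℕ} (_ : NeZero N) : CuspForm (G0 N) 2 →ₗ[ℂ] (ℕ → ℂ) where
  toFun f := fc f
  map_add' f g := by
    funext m
    have h := ModularForm.qExpansion_add (a := 2) (b := 2) one_pos (sp N) f g
    show (UpperHalfPlane.qExpansion (1 : ℝ) ((f + g : CuspForm (G0 N) 2) : ℍ → ℂ)).coeff m =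
      (UpperHalfPlane.qExpansion (1 : ℝ) (f : ℍ → ℂ)).coeff m +
      (UpperHalfPlane.qExpansion (1 : ℝ) (g : ℍ → ℂ)).coeff m
    rw [← map_add, ← h]
    rfl
  map_smul' a f := by
    funext m
    have h := ModularForm.qExpansion_smul (k := 2) one_pos (sp N) a f
    show (UpperHalfPlane.qExpansion (1 : ℝ) ((a • f : CuspForm (G0 N) 2) : ℍ → ℂ)).coeff m =
      a * (UpperHalfPlane.qExpansion (1 : ℝ) (f : ℍ → ℂ)).coeff m
    rw [← smul_eq_mul, ← PowerSeries.coeff_smul, ← h]
    rfl

/-- A cusp form is determined by its coefficients. -/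
private lemma ext_fc (hA : StA1) {N : ℕ} (hN : NeZero N) (f g : CuspForm (G0 N) 2)
    (h : ∀ m, fc f m = fc g m) : f = g := by
  apply DFunLike.ext
  intro z
  have h1 := (hA N hN f (z : ℂ) z.im_pos).2.1
  have h2 := (hA N hN g (z : ℂ) z.im_pos).2.1
  have e1 : fz f (z : ℂ) = f z := by
    unfold fz
    rw [UpperHalfPlane.ofComplex_apply]
  have e2 : fz g (z : ℂ) = g z := by
    unfold fz
    rw [UpperHalfPlane.ofComplex_apply]
  rw [e1] at h1
  rw [e2] at h2
  refine h1.unique ?_
  simp only [h]
  exact h2

/-- Two newforms with the same coefficients at the primes have the same coefficients. -/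
private lemma fc_eq {n : ℕ} (f g : CuspForm (G0 (2 ^ n)) 2) (hf : IsNewform n f)
    (hg : IsNewform n g) (h : ∀ p : ℕ, p.Prime → fc f p = fc g p) : ∀ m, fc f m = fc g m := by
  intro m
  induction m using Nat.strong_induction_on with
  | _ m ih =>
    rcases Nat.eq_zero_or_pos m with rfl | hm
    · rw [fc0 ⟨by positivity⟩, fc0 ⟨by positivity⟩]
    rcases Nat.lt_or_ge 1 m with h1 | h1
    · obtain ⟨p, hp, m', rfl⟩ := Nat.exists_prime_and_dvd (by omega : m ≠ 1)
      have hm' : 0 < m' := by
        rcases Nat.eq_zero_or_pos m' with h0 | h0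
        · rw [h0, mul_zero] at hm
          exact absurd hm (lt_irrefl 0)
        · exact h0
      have hlt : m' < p * m' := by
        have := hp.two_le
        nlinarith
      by_cases h2 : p = 2
      · subst h2
        rw [hf.hecke_two, hg.hecke_two, h 2 hp, ih m' hlt]
      · have ef := hf.hecke p hp h2 m'
        have eg := hg.hecke p hp h2 m'
        rw [h p hp, ih m' hlt] at ef
        have ed : (if p ∣ m' then (p : ℂ) * fc f (m' / p) else 0) =
            (if p ∣ m' then (p : ℂ) * fc g (m' / p) else 0) := by
          split_ifs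
          · rw [ih (m' / p) (lt_of_le_of_lt (Nat.div_le_self _ _) hlt)]
          · rfl
        rw [ed] at ef
        linear_combination ef - eg
    · have : m = 1 := by omega
      subst this
      rw [hf.normalised, hg.normalised]

/-- The monoid homomorphism of the eigenvalues. -/
private noncomputable def XX {n : ℕ} (f : CuspForm (G0 (2 ^ n)) 2) : FreeMonoid Nat.Primes →* ℂ :=
  FreeMonoid.lift (fun p : Nat.Primes => fc f (p : ℕ))

private lemma XX_of {n : ℕ} (f : CuspForm (G0 (2 ^ n)) 2) (p : Nat.Primes) :
    XX f (FreeMonoid.of p) = fc f (p : ℕ) := by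
  unfold XX
  exact FreeMonoid.lift_eval_of _ _

theorem hInd : StInd := by
  intro hA n r f hinj hnew
  have hN : NeZero (2 ^ n) := ⟨by positivity⟩
  rw [Fintype.linearIndependent_iff]
  intro x hx
  have hrel : ∀ m : ℕ, ∑ b, x b * fc (f b) m = 0 := by
    intro m
    have h1 := congrArg (fcL hN) hx
    rw [map_sum, map_zero] at h1
    have h2 := congrFun h1 m
    simp only [Finset.sum_apply, map_smul, Pi.smul_apply, smul_eq_mul, Pi.zero_apply] at h2
    exact h2
  have hword : ∀ w : FreeMonoid Nat.Primes, ∀ m : ℕ, ∑ b, x b * XX (f b) w * fc (f b) m = 0 := by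
    intro w
    induction w using FreeMonoid.inductionOn' with
    | one =>
      intro m
      simpa using hrel m
    | of_mul p w ih =>
      intro m
      have e : ∀ b, x b * XX (f b) (FreeMonoid.of p * w) * fc (f b) m =
          x b * XX (f b) w * (fc (f b) (p : ℕ) * fc (f b) m) := by
        intro b
        rw [map_mul, XX_of]
        ring
      simp only [e]
      by_cases h2 : (p : ℕ) = 2
      · have e2 : ∀ b, fc (f b) (p : ℕ) * fc (f b) m = fc (f b) (2 * m) := by
          intro b
          rw [h2, (hnew b).hecke_two]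
        simp only [e2]
        exact ih (2 * m)
      · have e2 : ∀ b, fc (f b) (p : ℕ) * fc (f b) m = fc (f b) ((p : ℕ) * m) +
            (if (p : ℕ) ∣ m then ((p : ℕ) : ℂ) * fc (f b) (m / (p : ℕ)) else 0) := by
          intro b
          exact ((hnew b).hecke p p.2 h2 m).symm
        simp only [e2, mul_add, Finset.sum_add_distrib]
        rw [ih ((p : ℕ) * m), zero_add]
        split_ifs with h3
        · have e3 : ∀ b, x b * XX (f b) w * (((p : ℕ) : ℂ) * fc (f b) (m / (p : ℕ))) =
              ((p : ℕ) : ℂ) * (x b * XX (f b) w * fc (f b) (m / (p : ℕ))) := by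
            intro b
            ring
          simp only [e3]
          rw [← Finset.mul_sum, ih (m / (p : ℕ)), mul_zero]
        · simp
  have hXinj : Function.Injective (fun b : Fin r => XX (f b)) := by
    intro b c hbc
    apply hinj
    apply ext_fc hA hN
    apply fc_eq (f b) (f c) (hnew b) (hnew c)
    intro p hp
    have hq : ∀ q : Nat.Primes, fc (f b) (q : ℕ) = fc (f c) (q : ℕ) := by
      intro q
      have h1 : XX (f b) (FreeMonoid.of q) = XX (f c) (FreeMonoid.of q) :=
        DFunLike.congr_fun hbc _
      rw [XX_of, XX_of] at h1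
      exact h1
    exact hq ⟨p, hp⟩
  have hli := (linearIndependent_monoidHom (FreeMonoid Nat.Primes) ℂ).comp
    (fun b : Fin r => XX (f b)) hXinj
  rw [Fintype.linearIndependent_iff] at hli
  apply hli x
  funext w
  have h1 := hword w 1
  simp only [(hnew _).normalised, mul_one] at h1
  simpa using h1

end Pool.Agent.Helper47.TW
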